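import Mathlib
import Pool.Agent.X295.PeK

/-!
# The polynomial Pell equation in families with several parameters

For `D` of degree `2 m` without multiple roots, `A ^ 2 - D B ^ 2 = 1` has a solution with `B ≠ 0`
(over some extension field) if and only if the difference of the two points at infinity of the
curve `y ^ 2 = D (x)`, of genus `m - 1`, is torsion in its Jacobian.
-/

set_option autoImplicit false

namespace Pool.Agent.Results.MP_160b6c_nt.PellInFamilies

open Polynomial

/-- The Pell equation of `D` has a nontrivial solution. -/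
def PellSolvable {k : Type*} [Field k] (D : k[X]) : Prop :=
  ∃ A B : k[X], B ≠ 0 ∧ A ^ 2 - D * B ^ 2 = 1

/-- The Pell equation of `D` has a nontrivial solution over some extension field. -/
def Pellian {F : Type} [Field F] (D : F[X]) : Prop :=
  ∃ (E : Type) (_ : Field E) (_ : Algebra F E), PellSolvable (D.map (algebraMap F E))

/-- The member `D_u` of the family `D`: the variables of the coefficients are replaced by `u`. -/
noncomputable def member {K : Type} [Field K] {q : ℕ} (D : (MvPolynomial (Fin q) K)[X])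
    {A : Type*} [Field A] [Algebra K A] (u : Fin q → A) : A[X] :=
  D.map (MvPolynomial.aeval u : MvPolynomial (Fin q) K →ₐ[K] A).toRingHom

/-- The coordinates of `u` have a common denominator at most `H` and conjugates at most `H` in
absolute value. -/
def SizeLe {F : Type} [Field F] {q : ℕ} (H : ℝ) (u : Fin q → F) : Prop :=
  ∃ b : ℕ, 1 ≤ b ∧ (b : ℝ) ≤ H ∧ (∀ j, IsIntegral ℤ ((b : F) * u j)) ∧
    ∀ (σ : F →+* ℂ) j, ‖σ (u j)‖ ≤ H

theorem result (K : Type) [Field K] [NumberField K] (q m : ℕ) (hm : 1 ≤ m)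
    (D : (MvPolynomial (Fin q) K)[X]) (hD : D.natDegree ≤ 2 * m)
    (A : Type*) [Field A] [IsAlgClosed A] [Algebra K A] (u₀ : Fin q → A)
    (h0 : (member D u₀).natDegree = 2 * m) (h1 : ¬ IsSquare (member D u₀))
    (h2 : ¬ PellSolvable (member D u₀)) (d : ℕ) :
    (∃ (C : ℝ) (c : ℕ), ∀ H : ℝ, 2 ≤ H → ∃ Φ : MvPolynomial (Fin q) K,
      MvPolynomial.aeval u₀ Φ ≠ 0 ∧ (Φ.totalDegree : ℝ) ≤ C * Real.log H ^ c ∧
      ∀ (F : Type) [Field F] [NumberField F] [Algebra K F], Module.finrank ℚ F ≤ d →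
        ∀ u : Fin q → F, SizeLe H u → Pellian (member D u) → MvPolynomial.aeval u Φ = 0) ∧
    (∃ (C : ℝ) (c : ℕ), ∀ H : ℝ, 2 ≤ H →
      ∀ (F : Type) [Field F] [NumberField F] [Algebra K F], Module.finrank ℚ F ≤ d →
        ∀ T : Finset F, (∀ u : Fin q → F, (∀ j, u j ∈ T) → SizeLe H u) →
          (({u : Fin q → F | (∀ j, u j ∈ T) ∧ Pellian (member D u)}.ncard : ℕ) : ℝ) ≤
            C * Real.log H ^ c * (T.card : ℝ) ^ (q - 1)) := by
  classical
  have hcoef : MvPolynomial.aeval u₀ (D.coeff (2 * m)) ≠ 0 := by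
    have h3 : (member D u₀).coeff (2 * m) ≠ 0 := by
      rw [← h0]
      have h4 : member D u₀ ≠ 0 := by
        intro h5
        rw [h5, natDegree_zero] at h0
        omega
      exact leadingCoeff_ne_zero.2 h4
    rw [member, coeff_map] at h3
    exact h3
  obtain ⟨C, c, hC, hmain⟩ := Pool.Agent.X295.Pe.pell_nf hm D hD u₀ hcoef h1 h2 d
  have key : ∀ H : ℝ, 2 ≤ H → ∃ Φ : MvPolynomial (Fin q) K,
      MvPolynomial.aeval u₀ Φ ≠ 0 ∧ (Φ.totalDegree : ℝ) ≤ C * Real.log H ^ c ∧
      ∀ (F : Type) [Field F] [NumberField F] [Algebra K F], Module.finrank ℚ F ≤ d →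
        ∀ u : Fin q → F, SizeLe H u → Pellian (member D u) → MvPolynomial.aeval u Φ = 0 := by
    intro H hH
    obtain ⟨Φ, hΦ0, hΦd, hΦ⟩ := hmain H hH
    refine ⟨Φ, hΦ0, hΦd, ?_⟩
    intro F _ _ _ hd u hu hpell
    obtain ⟨E, hE1, hE2, hsol⟩ := hpell
    exact hΦ F hd u hu E hsol
  refine ⟨⟨C, c, key⟩, C, c, ?_⟩
  intro H hH F _ _ _ hd T hT
  obtain ⟨Φ, hΦ0, hΦd, hΦ⟩ := key H hH
  have hlog : 0 ≤ Real.log H := Real.log_nonneg (by linarith)
  set Φ' : MvPolynomial (Fin q) F := MvPolynomial.map (algebraMap K F) Φ with hΦ'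
  have hΦ'0 : Φ' ≠ 0 := by
    intro h3
    have h4 : Φ = 0 := by
      apply MvPolynomial.map_injective (algebraMap K F) (algebraMap K F).injective
      rw [map_zero]
      exact h3
    rw [h4, map_zero] at hΦ0
    exact hΦ0 rfl
  have hdeg : Φ'.totalDegree ≤ Φ.totalDegree :=
    Finset.sup_mono (MvPolynomial.support_map_subset _ _)
  set Z : Finset (Fin q → F) :=
    (Fintype.piFinset fun _ : Fin q => T).filter (fun u => MvPolynomial.eval u Φ' = 0) with hZ
  have hsub : {u : Fin q → F | (∀ j, u j ∈ T) ∧ Pellian (member D u)} ⊆ (Z : Set (Fin q → F)) := by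
    intro u hu
    rw [hZ, Finset.mem_coe, Finset.mem_filter, Fintype.mem_piFinset]
    refine ⟨hu.1, ?_⟩
    rw [hΦ', MvPolynomial.eval_map]
    exact hΦ F hd u (hT u hu.1) hu.2
  have hcard : ({u : Fin q → F | (∀ j, u j ∈ T) ∧ Pellian (member D u)}.ncard : ℕ) ≤ Z.card := by
    rw [← Set.ncard_coe_finset]
    exact Set.ncard_le_ncard hsub (Finset.finite_toSet Z)
  have hZle : (Z.card : ℝ) ≤ Φ.totalDegree * (T.card : ℝ) ^ (q - 1) := by
    rcases Nat.eq_zero_or_pos T.card with hT0 | hT0
    · rcases Nat.eq_zero_or_pos q with hq | hq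
      · subst hq
        have h3 : Z = ∅ := by
          rw [Finset.eq_empty_iff_forall_notMem]
          intro u hu
          rw [hZ, Finset.mem_filter] at hu
          apply hΦ'0
          have h4 := MvPolynomial.eq_C_of_isEmpty Φ'
          rw [h4] at hu ⊢
          rw [MvPolynomial.eval_C] at hu
          rw [hu.2, MvPolynomial.C_0]
        rw [h3, Finset.card_empty, Nat.cast_zero]
        positivity
      · have h3 : Z = ∅ := by
          rw [Finset.eq_empty_iff_forall_notMem]
          intro u hu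
          rw [hZ, Finset.mem_filter, Fintype.mem_piFinset] at hu
          have h4 := hu.1 ⟨0, hq⟩
          rw [Finset.card_eq_zero.1 hT0] at h4
          exact Finset.notMem_empty _ h4
        rw [h3, Finset.card_empty, Nat.cast_zero]
        positivity
    · have h3 := MvPolynomial.schwartz_zippel_totalDegree hΦ'0 T
      have hTq : (0 : ℚ≥0) < (T.card : ℚ≥0) := by exact_mod_cast hT0
      rw [div_le_div_iff₀ (pow_pos hTq q) hTq] at h3
      have h4 : Z.card * T.card ≤ Φ'.totalDegree * T.card ^ q := by exact_mod_cast h3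
      rcases Nat.eq_zero_or_pos q with hq | hq
      · subst hq
        have h5 : Φ'.totalDegree = 0 := by
          rw [MvPolynomial.eq_C_of_isEmpty Φ', MvPolynomial.totalDegree_C]
        rw [h5, zero_mul, Nat.le_zero, mul_eq_zero] at h4
        rcases h4 with h4 | h4
        · rw [h4, Nat.cast_zero]
          positivity
        · omega
      · obtain ⟨p, rfl⟩ : ∃ p, q = p + 1 := ⟨q - 1, by omega⟩
        rw [pow_succ, ← mul_assoc] at h4
        have h5 : Z.card ≤ Φ'.totalDegree * T.card ^ p := Nat.le_of_mul_le_mul_right h4 hT0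
        have h6 : Z.card ≤ Φ.totalDegree * T.card ^ p :=
          h5.trans (Nat.mul_le_mul_right _ hdeg)
        rw [Nat.add_sub_cancel]
        exact_mod_cast h6
  calc (({u : Fin q → F | (∀ j, u j ∈ T) ∧ Pellian (member D u)}.ncard : ℕ) : ℝ)
      ≤ Z.card := by exact_mod_cast hcard
    _ ≤ Φ.totalDegree * (T.card : ℝ) ^ (q - 1) := hZle
    _ ≤ C * Real.log H ^ c * (T.card : ℝ) ^ (q - 1) :=
        mul_le_mul_of_nonneg_right hΦd (by positivity)

end Pool.Agent.Results.MP_160b6c_nt.PellInFamilies
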