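import Pool.Agent.X35.PN.NF

/-!
# No torsion near thin sequences in any family of hyperelliptic Jacobians, over all number fields at once

For `D` squarefree of degree `2 m` the equation `A² - D B² = 1` has a solution with `B ≠ 0` over some extension field if and
only if the difference of the two points at infinity of `y² = D(x)` is torsion in the Jacobian, which has dimension `m - 1`.

`PellInFamilies` (helper295) counts the members of a family with this property: there are at most `C (log H)^c |T|^(q-1)` in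
`T^q`. Here we pass from counting to ONE set of directions `α ∈ ℝ^(qk)`, of Hausdorff dimension at most
`(k (q - 1) + τ) / (1 - ρ)`, outside which for ALL number fields `F`, ALL integers `w_1, …, w_k` of `F` independent over `ℚ`
(for `k = [F : ℚ]`: an integral basis), ALL genera and ALL families over `F` with `q` parameters which are not torsion
identically, and all `l` large enough, NO member at an integral point `u_j = ∑_i s_ji w_i` of `F^q` with
`|s_ji - α_ji v_l| ≤ c v_l^ρ` is torsion.
-/

set_option autoImplicit false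

open Polynomial

namespace Pool.Agent.Results.MP_160b6c_nt.PellNearSequences

open Pool.Agent.Results.MP_160b6c_nt.PellInFamilies (member Pellian PellSolvable)

/-- the exponent of convergence of `v` is at most `τ` -/
def ExpLe (v : ℕ → ℝ) (τ : ℝ) : Prop := ∀ t : ℝ, τ < t → Summable (fun n : ℕ => (v n) ^ (-t))

/-- a family over `F` with `q` parameters, of degree at most `2 m` in `x`, some member of which, over an algebraically closed
extension of `F`, has degree `2 m`, is no square and has an unsolvable Pell equation -/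
def IsFamily {F : Type} [Field F] {q : ℕ} (m : ℕ) (D : (MvPolynomial (Fin q) F)[X]) : Prop :=
  1 ≤ m ∧ D.natDegree ≤ 2 * m ∧ ∃ (A : Type) (_ : Field A) (_ : IsAlgClosed A) (_ : Algebra F A) (u₀ : Fin q → A),
    (member D u₀).natDegree = 2 * m ∧ ¬ IsSquare (member D u₀) ∧ ¬ PellSolvable (member D u₀)

/-- the point with the coordinates `u_j = ∑ i, s (j, i) w_i` -/
noncomputable def point {F : Type} [Field F] {q k : ℕ} (w : Fin k → F) (s : Fin q × Fin k → ℤ) : Fin q → F :=
  fun j => ∑ i, (s (j, i) : F) * w i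

theorem result (q k : ℕ) (v : ℕ → ℝ) (τ ρ : ℝ) (hv1 : ∀ i, 1 ≤ v i) (hτ : 0 ≤ τ) (hρ : ρ < 1) (hv : ExpLe v τ) :
    ∃ E : Set (Fin q × Fin k → ℝ), dimH E ≤ ENNReal.ofReal ((((k * (q - 1) : ℕ) : ℝ) + τ) / (1 - ρ)) ∧
      ∀ α : Fin q × Fin k → ℝ, α ∉ E →
        ∀ F : IntermediateField ℚ (AlgebraicClosure ℚ), FiniteDimensional ℚ F →
          ∀ w : Fin k → F, LinearIndependent ℤ w → (∀ i, IsIntegral ℤ (w i)) →
            ∀ (m : ℕ) (D : (MvPolynomial (Fin q) F)[X]), IsFamily m D →
              ∀ c : ℝ, ∃ l₀ : ℕ, ∀ l : ℕ, l₀ ≤ l → ∀ s : Fin q × Fin k → ℤ,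
                (∀ j, |(s j : ℝ) - α j * v l| ≤ c * (v l) ^ ρ) → ¬ Pellian (member D (point w s)) := by
  have hcF : ∀ F : Pool.Agent.X134.Win.NF, Countable F.1 := fun F => Pool.Agent.X134.Win.countable_field F.1
  have hcM : ∀ F : Pool.Agent.X134.Win.NF, Countable (MvPolynomial (Fin q) F.1) := fun F => by
    have := hcF F
    exact Pool.Agent.X134.Win.countable_mvPolynomial (Fin q) F.1
  have hcP : ∀ F : Pool.Agent.X134.Win.NF, Countable ((MvPolynomial (Fin q) F.1)[X]) := fun F => by
    have := hcM F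
    rw [← Cardinal.mk_le_aleph0_iff]
    exact Polynomial.cardinalMk_le_max.trans (max_le Cardinal.mk_le_aleph0 le_rfl)
  have hc : Countable (Σ F : Pool.Agent.X134.Win.NF, (Fin k → F.1) × ℕ × (MvPolynomial (Fin q) F.1)[X]) := by
    have : ∀ F : Pool.Agent.X134.Win.NF, Countable ((Fin k → F.1) × ℕ × (MvPolynomial (Fin q) F.1)[X]) := fun F => by
      have h1 := hcF F
      have h2 := hcP F
      infer_instance
    infer_instance
  obtain ⟨E, hE, hE2⟩ := Pool.Agent.X35.PN.nearC (κ := Fin q × Fin k) (k * (q - 1))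
    (ι := {z : Σ F : Pool.Agent.X134.Win.NF, (Fin k → F.1) × ℕ × (MvPolynomial (Fin q) F.1)[X] //
      LinearIndependent ℤ z.2.1 ∧ (∀ i, IsIntegral ℤ (z.2.1 i)) ∧ IsFamily z.2.2.1 z.2.2.2})
    (fun z => {s | Pellian (member z.1.2.2.2 (Pool.Agent.X35.PN.point z.1.2.1 s))})
    (fun z => by
      obtain ⟨⟨F, w, m, D⟩, hw, hwi, hm, hD, A, _, _, _, u₀, h0, h1, h2⟩ := z
      exact Pool.Agent.X35.PN.count_nf hm D hD u₀ h0 h1 h2 hw hwi) hv1 hτ hv hρ
  refine ⟨E, hE, fun α hα F hF w hw hwi m D hD c => ?_⟩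
  obtain ⟨l₀, hl₀⟩ := hE2 α hα ⟨⟨⟨F, hF⟩, w, m, D⟩, hw, hwi, hD⟩ c
  exact ⟨l₀, fun l hl s hs => hl₀ l hl s hs⟩

end Pool.Agent.Results.MP_160b6c_nt.PellNearSequences
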