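import Pool.Agent.X300.UB.Dual

/-!
# Torsion of abelian varieties of dimension `g` and of principally polarised ones of dimension `4 g`

Let `K` be a number field. Q1 for the dimension `g` says that the orders of the `K`-rational torsion
points of the principally polarised abelian varieties of dimension `g` over `K` are bounded. Zarhin's
trick, `(A × A^)^4` is principally polarised, shows that Q1 in dimension `8 g` bounds the torsion of
all abelian varieties of dimension `g` over `K`, with arbitrary polarisations. Here `8 g` is replaced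
by `4 g`.

Theorem. (1) Let `A` be an abelian variety of dimension `g` over `K` with a `K`-rational point of
order `2^m n`, `n` odd. If `δ = 0` or `2 g δ < m`, then there is an abelian variety `A'` of dimension `g`
over `K` with a `K`-rational point of order `2^δ n` such that `(A' × A'^)^2` is principally polarised.
(2) So if `g ≥ 1` and the orders of the `K`-rational torsion points of the principally polarised abelian
varieties of dimension `4 g` are less than `B`, then the orders of the `K`-rational torsion points of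
all abelian varieties of dimension `g` over `K` are less than `(2 B)^(2 g)`. Here the hypothesis is
only needed for the principally polarised abelian varieties of the form `(A × A^)^2`; for these it is
equivalent to the conclusion.

Proof. If the kernel of a polarisation of `A'` is killed by `N` and `-1` is a sum of two squares modulo
`N` then `(A' × A'^)^2` is principally polarised (the quaternion trick); this holds if `4` does not
divide `N`, by the theorems of Dirichlet and Fermat. Let `T ⊆ T'` be the 2-adic Tate module of `A` and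
its dual lattice for the Weil pairing. The middle lattice `L`, the sum of the lattices
`2^k T' ∩ 2^(-k) T`, is stable under Galois, the pairing is integral on `L`, and the dual of `L` is
contained in `L / 2`. So `A' = A / (L / T)` has a polarisation whose kernel is killed by `2 n'` with `n'`
odd, and it has the same rational torsion points of odd order as `A`. The main point is the 2-primary
torsion: the rational points of `A` may be killed in `A'`. Let `v` be a vector of order `2^m` modulo `T`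
which is fixed by Galois modulo `T`. Choose a basis of `T'` adapted to `T`. For `j < m` let `2^a y`
be the part of `2^j v` outside of `T`, with `y` primitive in `L`. The numbers `a` are different for
different `j`, so for some `j` no elementary divisor exponent `h` of `T` in `L` satisfies
`a ≤ h < a + δ`. Then Galois fixes `y` modulo `2^δ L`: the coordinates with `h ≥ a + δ` because `2^a y`
is fixed modulo `T`, those with `h < a` because `y` is divisible by `2^(a + δ)` in `T'`. So `y / 2^δ`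
gives a rational point of order `2^δ` of `A'`.
-/

set_option autoImplicit false

universe u

namespace Pool.Agent.Results.MP_160b6c_nt.QuarterDimension

open Pool.Agent.X300.UB

/-- The abelian varieties `A` over the number field `K`, their dimensions, groups of `K`-rational
points, duals and products; `PP A`: there is a principal polarisation of `A` over `K`; `PolBy A N`:
there is a polarisation of `A` over `K` whose kernel is killed by `N`. -/
structure AbelianVarieties where
  AV : Type u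
  dim : AV → ℕ
  pts : AV → Type
  [grp : ∀ A, AddCommGroup (pts A)]
  PP : AV → Prop
  PolBy : AV → ℕ → Prop
  dual : AV → AV
  prod : AV → AV → AV

attribute [instance] AbelianVarieties.grp

/-- There is a `K`-rational point of order `n` on `A`. -/
def HasOrder (𝒱 : AbelianVarieties.{u}) (A : 𝒱.AV) (n : ℕ) : Prop :=
  ∃ P : 𝒱.pts A, addOrderOf P = n

/-- `A'` is the quotient of `A` by a finite subgroup over `K` of order a power of `p` on which the
polarisation descends; its Tate module is the lattice given by `d`, its points of order prime to `p`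
are those of `A`, and the `p`-part of the kernel of the polarisation is the quotient of the dual of
this lattice by the lattice. -/
structure IsQuotient (𝒱 : AbelianVarieties.{u}) (p : ℕ) [Fact p.Prime] (C : PolarisedTate p)
    (d : C.ι → ℕ) (A A' : 𝒱.AV) : Prop where
  dim : 𝒱.dim A' = 𝒱.dim A
  points : ∀ s, HasPoint C.toCoordinates d s → HasOrder 𝒱 A' (p ^ s)
  prime_to : ∀ n, 0 < n → ¬ p ∣ n → HasOrder 𝒱 A n → HasOrder 𝒱 A' n
  pol : C.DualInInv d → ∃ n, 0 < n ∧ ¬ p ∣ n ∧ 𝒱.PolBy A' (p * n)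

/-- `C` is the rational Tate module of `A` with the Weil pairing of a polarisation: the `K`-rational
points of order a power of `p` are the vectors modulo the Tate module which are fixed by Galois, and
the lattices between `T` and its dual which are stable under Galois and on which the pairing is
integral belong to quotients of `A` with a polarisation. -/
structure IsTateModule (𝒱 : AbelianVarieties.{u}) (p : ℕ) [Fact p.Prime] (C : PolarisedTate p)
    (A : 𝒱.AV) : Prop where
  card : Fintype.card C.ι = 2 * 𝒱.dim A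
  points : ∀ m, HasOrder 𝒱 A (p ^ m) → HasPoint C.toCoordinates C.c m
  quotient : ∀ d : C.ι → ℕ, (∀ i, d i ≤ C.c i) → C.toCoordinates.Stable d → C.IntegralOn d →
    ∃ A', IsQuotient 𝒱 p C d A A'

/-- `(A × A^)^2` -/
def square (𝒱 : AbelianVarieties.{u}) (A : 𝒱.AV) : 𝒱.AV :=
  𝒱.prod (𝒱.prod A (𝒱.dual A)) (𝒱.prod A (𝒱.dual A))

/-- The known facts: dimensions and points of products; `A` has a polarisation and a Tate module; if a
polarisation of `A` has a kernel killed by `N` and `N` divides `a^2 + b^2 + 1`, then `(A × A^)^2` has a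
principal polarisation (Zarhin). -/
structure KnownProperties (𝒱 : AbelianVarieties.{u}) : Prop where
  dim_dual : ∀ A, 𝒱.dim (𝒱.dual A) = 𝒱.dim A
  dim_prod : ∀ A B, 𝒱.dim (𝒱.prod A B) = 𝒱.dim A + 𝒱.dim B
  points_prod : ∀ A B n, HasOrder 𝒱 (𝒱.prod A B) n ↔
    ∃ i j, HasOrder 𝒱 A i ∧ HasOrder 𝒱 B j ∧ n = Nat.lcm i j
  zarhin : ∀ A N a b, 0 < N → 𝒱.PolBy A N → N ∣ a ^ 2 + b ^ 2 + 1 → 𝒱.PP (square 𝒱 A)
  tate : ∀ A (p : ℕ) [Fact p.Prime], ∃ C : PolarisedTate p, IsTateModule 𝒱 p C A

/-- The orders of the torsion points in `A(K)` are less than `B`. -/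
def OrdersLess (𝒱 : AbelianVarieties.{u}) (A : 𝒱.AV) (B : ℕ) : Prop :=
  ∀ P : 𝒱.pts A, addOrderOf P < B

section

variable {𝒱 : AbelianVarieties.{u}} (h𝒱 : KnownProperties 𝒱)

include h𝒱

theorem dim_square (A : 𝒱.AV) : 𝒱.dim (square 𝒱 A) = 4 * 𝒱.dim A := by
  unfold square
  rw [h𝒱.dim_prod, h𝒱.dim_prod, h𝒱.dim_dual]
  omega

theorem square_hasOrder (A : 𝒱.AV) (n : ℕ) (h : HasOrder 𝒱 A n) : HasOrder 𝒱 (square 𝒱 A) n := by
  have h1 : ∀ B : 𝒱.AV, HasOrder 𝒱 B 1 := fun B => ⟨0, addOrderOf_zero⟩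
  have h2 : ∀ B C : 𝒱.AV, HasOrder 𝒱 B n → HasOrder 𝒱 (𝒱.prod B C) n := fun B C hB =>
    (h𝒱.points_prod B C n).mpr ⟨n, 1, hB, h1 C, (Nat.lcm_one_right n).symm⟩
  exact h2 _ _ (h2 _ _ h)

/-- (1) -/
theorem exists_principal (A : 𝒱.AV) (m n δ : ℕ) (hn : ¬ 2 ∣ n) (hA : HasOrder 𝒱 A (2 ^ m * n))
    (hδ : δ = 0 ∨ 2 * 𝒱.dim A * δ < m) :
    ∃ A', 𝒱.dim A' = 𝒱.dim A ∧ 𝒱.PP (square 𝒱 A') ∧ HasOrder 𝒱 A' (2 ^ δ * n) := by
  have hn0 : 0 < n := Nat.pos_of_ne_zero fun h => hn (h ▸ dvd_zero 2)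
  obtain ⟨P, hP⟩ := hA
  have h2m : 0 < 2 ^ m := Nat.two_pow_pos m
  have hP1 : HasOrder 𝒱 A (2 ^ m) := by
    refine ⟨n • P, ?_⟩
    rw [addOrderOf_nsmul' P hn0.ne', hP, Nat.gcd_eq_right (Dvd.intro_left _ rfl),
      Nat.mul_div_cancel _ hn0]
  have hP2 : HasOrder 𝒱 A n := by
    refine ⟨2 ^ m • P, ?_⟩
    rw [addOrderOf_nsmul' P h2m.ne', hP, Nat.gcd_eq_right (Dvd.intro _ rfl),
      Nat.mul_div_cancel_left _ h2m]
  obtain ⟨C, hC⟩ := h𝒱.tate A 2
  obtain ⟨A', hA'⟩ := hC.quotient C.toCoordinates.half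
    (fun i => by
      change (C.c i + 1) / 2 ≤ C.c i
      omega)
    (half_stable C.toCoordinates) (half_integral C)
  obtain ⟨Q₂, hQ₂⟩ := hA'.prime_to n hn0 hn hP2
  obtain ⟨Q₁, hQ₁⟩ : HasOrder 𝒱 A' (2 ^ δ) := by
    rcases hδ with h | h
    · refine ⟨0, ?_⟩
      rw [h, pow_zero, addOrderOf_zero]
    · refine hA'.points δ (middle C.toCoordinates m δ ?_ (hC.points m hP1))
      rw [hC.card]
      exact h
  obtain ⟨n', hn'0, hn', hpol⟩ := hA'.pol (half_dual C)
  obtain ⟨a, b, hab⟩ := exists_sum_two_squares n' hn'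
  refine ⟨A', hA'.dim, h𝒱.zarhin A' (2 * n') a b (by omega) hpol hab, Q₁ + Q₂, ?_⟩
  have hco : Nat.Coprime (addOrderOf Q₁) (addOrderOf Q₂) := by
    rw [hQ₁, hQ₂]
    exact Nat.Coprime.pow_left δ ((Nat.Prime.coprime_iff_not_dvd Nat.prime_two).mpr hn)
  rw [(AddCommute.all Q₁ Q₂).addOrderOf_add_eq_mul_addOrderOf_of_coprime hco, hQ₁, hQ₂]

/-- (2) -/
theorem bound (g B : ℕ) (hg : 1 ≤ g)
    (hB : ∀ A, 𝒱.dim A = g → 𝒱.PP (square 𝒱 A) → OrdersLess 𝒱 (square 𝒱 A) B)
    (A : 𝒱.AV) (hA : 𝒱.dim A = g) : OrdersLess 𝒱 A ((2 * B) ^ (2 * g)) := by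
  have key : ∀ m n δ, ¬ 2 ∣ n → HasOrder 𝒱 A (2 ^ m * n) → (δ = 0 ∨ 2 * 𝒱.dim A * δ < m) →
      2 ^ δ * n < B := by
    intro m n δ hn hmn hδ
    obtain ⟨A', hA', hPP, h1⟩ := exists_principal h𝒱 A m n δ hn hmn hδ
    obtain ⟨Q, hQ⟩ := square_hasOrder h𝒱 A' _ h1
    exact hQ ▸ hB A' (by rw [hA', hA]) hPP Q
  intro P
  rcases Nat.eq_zero_or_pos (addOrderOf P) with h0 | h0
  · -- a point of infinite order: `B` is positive
    have h1 := key 0 1 0 (by omega) ⟨0, by rw [addOrderOf_zero, pow_zero, mul_one]⟩ (Or.inl rfl)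
    rw [h0]
    have h2 : 0 < B := by omega
    positivity
  obtain ⟨m, n, hn, hmn⟩ := Nat.exists_eq_two_pow_mul_odd h0.ne'
  have hn2 : ¬ 2 ∣ n := hn.not_two_dvd_nat
  have hn0 : 1 ≤ n := hn.pos
  -- choose `δ` maximal
  let δ := (m - 1) / (2 * g)
  have hδ : δ = 0 ∨ 2 * 𝒱.dim A * δ < m := by
    rcases Nat.eq_zero_or_pos m with h | h
    · left
      simp [δ, h]
    · right
      rw [hA]
      have h1 : 2 * g * δ ≤ m - 1 := Nat.mul_div_le (m - 1) (2 * g)
      omega
  have hm : m ≤ 2 * g * (δ + 1) := by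
    have h1 : m - 1 < 2 * g * (δ + 1) := Nat.lt_mul_div_succ (m - 1) (by omega)
    omega
  have h1 : 2 ^ δ * n < B := key m n δ hn2 ⟨P, hmn⟩ hδ
  rw [hmn]
  calc 2 ^ m * n ≤ 2 ^ (2 * g * (δ + 1)) * n ^ (2 * g) := by
        refine Nat.mul_le_mul (Nat.pow_le_pow_right (by omega) hm) ?_
        exact Nat.le_self_pow (by omega) n
    _ = (2 * (2 ^ δ * n)) ^ (2 * g) := by
        rw [mul_comm (2 * g) (δ + 1), pow_mul, ← mul_pow, pow_succ]
        congr 1
        ring
    _ < (2 * B) ^ (2 * g) := by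
        refine Nat.pow_lt_pow_left ?_ (by omega)
        omega

/-- (2), the converse. -/
theorem bound_square (g B : ℕ) (hB : ∀ A, 𝒱.dim A = g → OrdersLess 𝒱 A B) (A : 𝒱.AV)
    (hA : 𝒱.dim A = g) : OrdersLess 𝒱 (square 𝒱 A) (B ^ 4) := by
  have hB' : ∀ A, 𝒱.dim A = g → ∀ n, HasOrder 𝒱 A n → n < B := by
    rintro A hA n ⟨P, rfl⟩
    exact hB A hA P
  have hdual : 𝒱.dim (𝒱.dual A) = g := by rw [h𝒱.dim_dual, hA]
  have h2 : ∀ n, HasOrder 𝒱 (𝒱.prod A (𝒱.dual A)) n → n < B ^ 2 := by
    intro n hn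
    obtain ⟨i, j, hi, hj, rfl⟩ := (h𝒱.points_prod _ _ _).mp hn
    have h3 := hB' A hA i hi
    have h4 := hB' _ hdual j hj
    calc Nat.lcm i j ≤ i * j := Nat.div_le_self _ _
      _ < B * B := Nat.mul_lt_mul'' h3 h4
      _ = B ^ 2 := (sq B).symm
  intro P
  obtain ⟨i, j, hi, hj, h⟩ := (h𝒱.points_prod _ _ _).mp ⟨P, rfl⟩
  calc addOrderOf P = Nat.lcm i j := h
    _ ≤ i * j := Nat.div_le_self _ _
    _ < B ^ 2 * B ^ 2 := Nat.mul_lt_mul'' (h2 i hi) (h2 j hj)
    _ = B ^ 4 := by rw [← pow_add]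

end

/-- The orders of the rational torsion points of the abelian varieties in the class `S` are
bounded. -/
def TorsionBounded (𝒱 : AbelianVarieties.{u}) (S : 𝒱.AV → Prop) : Prop :=
  ∃ B, ∀ A, S A → OrdersLess 𝒱 A B

/-- `X` is of the form `(A × A^)^2` with `A` of dimension `g`, and it is principally polarised. -/
def IsSquare (𝒱 : AbelianVarieties.{u}) (g : ℕ) (X : 𝒱.AV) : Prop :=
  ∃ A, 𝒱.dim A = g ∧ X = square 𝒱 A ∧ 𝒱.PP X

/-- (1) points of order `2^m n` in dimension `g`; (2) Q1 in dimension `4 g` bounds the torsion of all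
abelian varieties of dimension `g`, and the equivalence. -/
theorem result (𝒱 : AbelianVarieties.{u}) (h𝒱 : KnownProperties 𝒱) :
    (∀ (A : 𝒱.AV) (m n δ : ℕ), ¬ 2 ∣ n → HasOrder 𝒱 A (2 ^ m * n) →
      (δ = 0 ∨ 2 * 𝒱.dim A * δ < m) →
      ∃ A', 𝒱.dim A' = 𝒱.dim A ∧ 𝒱.PP (square 𝒱 A') ∧ HasOrder 𝒱 A' (2 ^ δ * n)) ∧
    ∀ g : ℕ, 1 ≤ g →
      (∀ B, (∀ X, 𝒱.dim X = 4 * g → 𝒱.PP X → OrdersLess 𝒱 X B) →
        ∀ A, 𝒱.dim A = g → OrdersLess 𝒱 A ((2 * B) ^ (2 * g))) ∧
      (TorsionBounded 𝒱 (IsSquare 𝒱 g) ↔ TorsionBounded 𝒱 fun A => 𝒱.dim A = g) := by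
  refine ⟨fun A m n δ hn hA hδ => exists_principal h𝒱 A m n δ hn hA hδ, fun g hg =>
    ⟨fun B hB A hA => bound h𝒱 g B hg (fun A' hA' h => hB _ ?_ h) A hA, ?_, ?_⟩⟩
  · rw [dim_square h𝒱, hA']
  · rintro ⟨B, hB⟩
    exact ⟨_, fun A hA => bound h𝒱 g B hg (fun A' hA' h => hB _ ⟨A', hA', rfl, h⟩) A hA⟩
  · rintro ⟨B, hB⟩
    refine ⟨B ^ 4, ?_⟩
    rintro _ ⟨A, hA, rfl, -⟩
    exact bound_square h𝒱 g B hB A hA

end Pool.Agent.Results.MP_160b6c_nt.QuarterDimension
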