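import Pool.Agent.X308.R.Tors

/-!
# Uniform boundedness of torsion from a bound for the rank of multiples of the torsion
-/

set_option autoImplicit false

namespace Pool.Agent.Results.MP_160b6c_nt.SmallTorsionRank

open Pool.Agent.X308.R

/-- **Theorem.** The rational torsion points of principally polarized abelian varieties of each
dimension have bounded order if and only if, in a sequence of dimensions `g t → ∞`, for some
`m t ≥ 1` and `r t = o (g t)`, the group `m t • A(K)_tors` has at most `p ^ r t` elements killed by
`p`, for all `A` of dimension `g t` and all primes `p`. -/
theorem result {C : Type} (L : TorsionClass C) : L.Bounded ↔ L.SmallRank :=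
  L.bounded_iff

end Pool.Agent.Results.MP_160b6c_nt.SmallTorsionRank
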